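import Pool.Agent.Q31.GLV.Stm

set_option autoImplicit false

namespace Pool.Agent.Q40.GLV

open Module Cardinal Submodule Pool.Agent.Q31.GLV

/-- T5A of project GLV -/
theorem t_T5A : S_T5A := by
  intro F V _ _ _ hV hμ H hH U hU hNT
  obtain ⟨μ, hμ0, hμ1⟩ := hμ
  -- the element for the scalar
  obtain ⟨k, hkH, hk1, hk2⟩ := hNT (LinearEquiv.smulOfNeZero F U μ hμ0)
  have hk1' : ∀ u : U, k (u : V) = μ • (u : V) := by
    intro u; rw [hk1 u]; rfl
  let γ : V →ₗ[F] U := LinearMap.codRestrict U ((k : V →ₗ[F] V) - LinearMap.id) (fun v => hk2 v)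
  have hγ : ∀ v, ((γ v : U) : V) = k v - v := fun v => rfl
  have hγU : ∀ u : U, γ (u : V) = (μ - 1) • u := by
    intro u
    apply Subtype.ext
    rw [hγ, hk1', Submodule.coe_smul, sub_smul, one_smul]
  have hμ' : μ - 1 ≠ 0 := sub_ne_zero.2 hμ1
  refine ⟨LinearMap.ker γ, ?_, ?_⟩
  · constructor
    · rw [Submodule.disjoint_def]
      intro x hx hx'
      have h1 := hγU ⟨x, hx⟩
      rw [LinearMap.mem_ker] at hx'
      rw [show ((⟨x, hx⟩ : U) : V) = x from rfl, hx'] at h1
      have h2 := (smul_eq_zero.1 h1.symm).resolve_left hμ'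
      exact congrArg Subtype.val h2
    · rw [codisjoint_iff_le_sup]
      intro v _
      have e1 : v = (((μ - 1)⁻¹ • γ v : U) : V) + (v - (((μ - 1)⁻¹ • γ v : U) : V)) := by abel
      rw [e1]
      refine Submodule.add_mem_sup (Subtype.mem _) ?_
      rw [LinearMap.mem_ker, map_sub, hγU, smul_smul, mul_inv_cancel₀ hμ', one_smul, sub_self]
  · intro C₁ hC₁ hr hq
    have hcompl : IsCompl (LinearMap.ker γ) U := by
      constructor
      · rw [Submodule.disjoint_def]
        intro x hx' hx
        have h1 := hγU ⟨x, hx⟩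
        rw [LinearMap.mem_ker] at hx'
        rw [show ((⟨x, hx⟩ : U) : V) = x from rfl, hx'] at h1
        have h2 := (smul_eq_zero.1 h1.symm).resolve_left hμ'
        exact congrArg Subtype.val h2
      · rw [codisjoint_iff_le_sup]
        intro v _
        have e1 : v = (v - (((μ - 1)⁻¹ • γ v : U) : V)) + (((μ - 1)⁻¹ • γ v : U) : V) := by abel
        rw [e1]
        refine Submodule.add_mem_sup ?_ (Subtype.mem _)
        rw [LinearMap.mem_ker, map_sub, hγU, smul_smul, mul_inv_cancel₀ hμ', one_smul, sub_self]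
    have hW : Large (U ⊔ C₁) := by
      refine ⟨le_antisymm (Submodule.rank_le _) ?_, hq⟩
      rw [← hU.1]
      exact Submodule.rank_mono le_sup_left
    obtain ⟨p⟩ : Nonempty (C₁ ≃ₗ[F] U) := nonempty_linearEquiv_of_rank_eq (by rw [hr, hU.1])
    obtain ⟨P, hP⟩ := LinearMap.exists_extend (p : C₁ →ₗ[F] U)
    have hP' : ∀ c : C₁, P (c : V) = p c := fun c => by
      have := LinearMap.congr_fun hP c
      exact this
    let q : V →ₗ[F] U := P ∘ₗ (LinearMap.ker γ).subtype ∘ₗ
      Submodule.projectionOnto (LinearMap.ker γ) U hcompl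
    have hqU : ∀ u : U, q (u : V) = 0 := by
      intro u
      have : Submodule.projectionOnto (LinearMap.ker γ) U hcompl (u : V) = 0 :=
        Submodule.projectionOnto_apply_right hcompl u
      change P ((Submodule.projectionOnto (LinearMap.ker γ) U hcompl (u : V) :
        LinearMap.ker γ) : V) = 0
      rw [this]; simp
    have hqC : ∀ c : C₁, q (c : V) = p c := by
      intro c
      have : Submodule.projectionOnto (LinearMap.ker γ) U hcompl (c : V) = ⟨c, hC₁ c.2⟩ :=
        Submodule.projectionOnto_apply_left hcompl ⟨c, hC₁ c.2⟩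
      change P ((Submodule.projectionOnto (LinearMap.ker γ) U hcompl (c : V) :
        LinearMap.ker γ) : V) = _
      rw [this]; exact hP' c
    -- the equivalence of `W`
    let N : (U ⊔ C₁ : Submodule F V) →ₗ[F] (U ⊔ C₁ : Submodule F V) :=
      Submodule.inclusion le_sup_left ∘ₗ q ∘ₗ (U ⊔ C₁).subtype
    have hN : ∀ w, ((N w : (U ⊔ C₁ : Submodule F V)) : V) = ((q (w : V) : U) : V) := fun w => rfl
    have hNN : ∀ w, N (N w) = 0 := by
      intro w
      apply Subtype.ext
      rw [hN, hN, hqU]; rfl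
    let g : (U ⊔ C₁ : Submodule F V) ≃ₗ[F] (U ⊔ C₁ : Submodule F V) :=
      LinearEquiv.ofLinearMap (LinearMap.id + N) (LinearMap.id - N)
        (by ext w; simp [hNN]) (by ext w; simp [hNN])
    obtain ⟨h, hhH, hh⟩ := hH _ hW g
    have hh' : ∀ w : (U ⊔ C₁ : Submodule F V), h (w : V) = (w : V) + ((q (w : V) : U) : V) := by
      intro w; rw [hh w]; rfl
    have hhU : ∀ u : U, h (u : V) = u := by
      intro u
      have := hh' ⟨u, Submodule.mem_sup_left u.2⟩
      rw [show (((⟨u, Submodule.mem_sup_left u.2⟩ : (U ⊔ C₁ : Submodule F V))) : V) = (u : V)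
        from rfl, hqU] at this
      simpa using this
    have hhU' : ∀ u : U, h⁻¹ (u : V) = u := by
      intro u
      have : (h⁻¹ : V ≃ₗ[F] V) (h (u : V)) = u := h.symm_apply_apply (u : V)
      rwa [hhU] at this
    refine ⟨γ ∘ₗ ((h : V →ₗ[F] V) - LinearMap.id), ⟨?_, ?_⟩, ?_⟩
    · intro u
      rw [LinearMap.comp_apply, LinearMap.sub_apply]
      simp [hhU]
    · refine ⟨h⁻¹ * k * h * k⁻¹, H.mul_mem (H.mul_mem (H.mul_mem (H.inv_mem hhH) hkH) hhH)
        (H.inv_mem hkH), ?_⟩
      intro v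
      obtain ⟨w, rfl⟩ : ∃ w, v = k w := ⟨k.symm v, (k.apply_symm_apply v).symm⟩
      have e1 : (k⁻¹ : V ≃ₗ[F] V) (k w) = w := k.symm_apply_apply w
      rw [LinearEquiv.mul_apply, LinearEquiv.mul_apply, LinearEquiv.mul_apply, e1]
      -- `k (h w) = h w + γ (h w)`
      have e2 : k (h w) = h w + ((γ (h w) : U) : V) := by rw [hγ]; abel
      have e3 : k w = w + ((γ w : U) : V) := by rw [hγ]; abel
      have e4 : (h⁻¹ : V ≃ₗ[F] V) (h w) = w := h.symm_apply_apply w
      rw [e2, map_add, e4, hhU', LinearMap.comp_apply, LinearMap.sub_apply]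
      have e5 : (h : V →ₗ[F] V) (k w) - (LinearMap.id : V →ₗ[F] V) (k w) = h w - w := by
        change h (k w) - k w = h w - w
        rw [e3, map_add, hhU]; abel
      rw [e5, map_sub, e3]
      push_cast
      abel
    · intro v hv h0
      rw [LinearMap.comp_apply, LinearMap.sub_apply] at h0
      have e1 : (h : V →ₗ[F] V) v - (LinearMap.id : V →ₗ[F] V) v = ((p ⟨v, hv⟩ : U) : V) := by
        change h v - v = _
        have := hh' ⟨v, Submodule.mem_sup_right hv⟩
        rw [show (((⟨v, Submodule.mem_sup_right hv⟩ : (U ⊔ C₁ : Submodule F V))) : V) = v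
          from rfl] at this
        rw [this, ← hqC ⟨v, hv⟩]
        abel
      rw [e1, hγU] at h0
      have h2 := (smul_eq_zero.1 h0).resolve_left hμ'
      have h3 : (⟨v, hv⟩ : C₁) = 0 := by
        have := congrArg p.symm h2
        simpa using this
      exact congrArg Subtype.val h3

end Pool.Agent.Q40.GLV
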