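import Pool.Agent.Q31.GLV.Stm

set_option autoImplicit false

namespace Pool.Agent.Q40.GLV

open Module Cardinal Submodule Pool.Agent.Q31.GLV

section
variable {F V : Type} [Field F] [AddCommGroup V] [Module F V]

theorem inT_add {H : Subgroup (V ≃ₗ[F] V)} {U : Submodule F V} {τ τ' : V →ₗ[F] U}
    (h : InT H U τ) (h' : InT H U τ') : InT H U (τ + τ') := by
  obtain ⟨hu, t, htH, ht⟩ := h
  obtain ⟨hu', t', htH', ht'⟩ := h'
  refine ⟨fun u => by rw [LinearMap.add_apply, hu, hu', add_zero], t * t', H.mul_mem htH htH', ?_⟩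
  intro v
  rw [LinearEquiv.mul_apply, ht', ht, map_add, hu, LinearMap.add_apply]
  push_cast
  rw [add_zero]
  abel

theorem inT_conj {H : Subgroup (V ≃ₗ[F] V)} {U : Submodule F V} (hNT : NT H U) {τ : V →ₗ[F] U}
    (h : InT H U τ) (y : U ≃ₗ[F] U) : InT H U ((y : U →ₗ[F] U) ∘ₗ τ) := by
  obtain ⟨hu, t, htH, ht⟩ := h
  obtain ⟨k, hkH, hk1, hk2⟩ := hNT y
  refine ⟨fun u => by rw [LinearMap.comp_apply, hu, map_zero],
    k * t * k⁻¹, H.mul_mem (H.mul_mem hkH htH) (H.inv_mem hkH), ?_⟩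
  intro v
  -- `w = k⁻¹ v`
  obtain ⟨w, rfl⟩ : ∃ w, v = k w := ⟨k.symm v, (k.apply_symm_apply v).symm⟩
  have e1 : (k⁻¹ : V ≃ₗ[F] V) (k w) = w := k.symm_apply_apply w
  rw [LinearEquiv.mul_apply, LinearEquiv.mul_apply, e1, ht, map_add, hk1]
  have e2 : τ (k w) = τ w := by
    have h1 : τ (k w - w) = 0 := hu ⟨k w - w, hk2 w⟩
    rw [map_sub, sub_eq_zero] at h1
    exact h1
  rw [LinearMap.comp_apply, e2]
  rfl

end

/-- TA of project GLV -/
theorem t_TA (hSUM : S_SUM) : S_TA := by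
  intro F V _ _ _ hV H U hU hNT
  refine ⟨fun τ τ' h h' => inT_add h h', fun τ e h => ?_⟩
  have hrU : ℵ₀ ≤ Module.rank F U := by rw [hU.1]; exact hV
  obtain ⟨a, b, c, d, he⟩ := hSUM F U hrU e
  have e1 : e ∘ₗ τ = (((a : U →ₗ[F] U) ∘ₗ τ + (b : U →ₗ[F] U) ∘ₗ τ) + (c : U →ₗ[F] U) ∘ₗ τ)
      + (d : U →ₗ[F] U) ∘ₗ τ := by
    ext v
    simp [he]
  rw [e1]
  exact inT_add (inT_add (inT_add (inT_conj hNT h a) (inT_conj hNT h b)) (inT_conj hNT h c))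
    (inT_conj hNT h d)

end Pool.Agent.Q40.GLV
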